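import Mathlib
import Pool.Agent.N275.QD.Ana

/-!
Expansion of Macdonald's function of imaginary order (helper456, for helper275's project QD).
-/

set_option autoImplicit false

namespace Pool.Agent.N456.QD

open MeasureTheory Set Filter Topology
open scoped Real
open Pool.Agent.N275.QD

/-- `cosh u ≥ 1 + u² / 2` -/
lemma cosh_ge (u : ℝ) : 1 + u ^ 2 / 2 ≤ Real.cosh u := by
  have h1 : Real.cosh u = 1 + 2 * Real.sinh (u / 2) ^ 2 := by
    have h := Real.cosh_two_mul (u / 2)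
    have h2 := Real.cosh_sq (u / 2)
    rw [show 2 * (u / 2) = u by ring] at h
    rw [h, h2]; ring
  have h2 : (u / 2) ^ 2 ≤ Real.sinh (u / 2) ^ 2 := by
    rw [sq_le_sq, Real.abs_sinh]
    have h3 : 0 ≤ |u / 2| := abs_nonneg _
    rwa [← Real.self_le_sinh_iff] at h3
  rw [h1]
  nlinarith

lemma sinh_le_exp {u : ℝ} : Real.sinh u ≤ Real.exp u := by
  rw [Real.sinh_eq]
  have := Real.exp_pos u
  have := Real.exp_pos (-u)
  linarith

lemma cosh_le_exp {u : ℝ} (hu : 0 ≤ u) : Real.cosh u ≤ Real.exp u := by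
  rw [Real.cosh_eq]
  have : Real.exp (-u) ≤ Real.exp u := Real.exp_le_exp.mpr (by linarith)
  linarith

/-- domination -/
lemma dom (X : ℝ) (hX : 0 < X) (n : ℕ) (u : ℝ) :
    Real.exp (n * u) * Real.exp (-(X * Real.cosh u)) ≤
      Real.exp ((n : ℝ) ^ 2 / X) * Real.exp (-(X / 4) * u ^ 2) := by
  rw [← Real.exp_add, ← Real.exp_add]
  apply Real.exp_le_exp.mpr
  have h1 := cosh_ge u
  have h2 : X * (1 + u ^ 2 / 2) ≤ X * Real.cosh u := by gcongr
  have h3 : (n : ℝ) * u ≤ (n : ℝ) ^ 2 / X + X / 4 * u ^ 2 := by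
    have e1 : (n : ℝ) ^ 2 / X + X / 4 * u ^ 2 - n * u = (n - X * u / 2) ^ 2 / X := by
      field_simp
      ring
    have : 0 ≤ (n - X * u / 2) ^ 2 / X := by positivity
    linarith
  nlinarith

lemma int_exp (X : ℝ) (hX : 0 < X) (n : ℕ) :
    IntegrableOn (fun u : ℝ => Real.exp (n * u) * Real.exp (-(X * Real.cosh u))) (Ioi 0) := by
  have h1 : Integrable (fun u : ℝ => Real.exp ((n : ℝ) ^ 2 / X) * Real.exp (-(X / 4) * u ^ 2)) :=
    (integrable_exp_neg_mul_sq (by positivity)).const_mul _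
  refine (h1.mono' ?_ ?_).integrableOn
  · apply Continuous.aestronglyMeasurable
    fun_prop
  · filter_upwards with u
    rw [Real.norm_eq_abs, abs_of_nonneg (by positivity)]
    exact dom X hX n u

/-- a continuous function bounded by `C exp (n u)` is integrable against the weight -/
lemma int_of_le (X : ℝ) (hX : 0 < X) (n : ℕ) (C : ℝ) (f : ℝ → ℝ) (hf : Continuous f)
    (h : ∀ u, 0 < u → |f u| ≤ C * Real.exp (n * u)) :
    IntegrableOn (fun u : ℝ => f u * Real.exp (-(X * Real.cosh u))) (Ioi 0) := by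
  have h1 := (int_exp X hX n).const_mul C
  refine h1.mono' ?_ ?_
  · apply Continuous.aestronglyMeasurable
    fun_prop
  · rw [ae_restrict_iff' measurableSet_Ioi]
    filter_upwards with u hu
    rw [Real.norm_eq_abs, abs_mul, abs_of_pos (Real.exp_pos _), ← mul_assoc]
    exact mul_le_mul_of_nonneg_right (h u hu) (Real.exp_pos _).le

lemma tendsto_of_le (X : ℝ) (hX : 0 < X) (n : ℕ) (C : ℝ) (f : ℝ → ℝ)
    (h : ∀ u, 0 < u → |f u| ≤ C * Real.exp (n * u)) :
    Tendsto (fun u : ℝ => f u * Real.exp (-(X * Real.cosh u))) atTop (𝓝 0) := by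
  have hC : 0 ≤ C := by
    have := (abs_nonneg _).trans (h 1 one_pos)
    exact nonneg_of_mul_nonneg_left this (Real.exp_pos _)
  have h1 : Tendsto (fun u : ℝ => C * (Real.exp ((n : ℝ) ^ 2 / X) * Real.exp (-(X / 4) * u ^ 2)))
      atTop (𝓝 0) := by
    have h2 : Tendsto (fun u : ℝ => Real.exp (-(X / 4) * u ^ 2)) atTop (𝓝 0) := by
      apply Real.tendsto_exp_atBot.comp
      apply Tendsto.const_mul_atTop_of_neg (by linarith)
      exact tendsto_pow_atTop (by norm_num)
    have := (h2.const_mul (Real.exp ((n : ℝ) ^ 2 / X))).const_mul C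
    simpa using this
  apply squeeze_zero_norm' _ h1
  filter_upwards [eventually_gt_atTop 0] with u hu
  rw [Real.norm_eq_abs, abs_mul, abs_of_pos (Real.exp_pos _)]
  calc |f u| * Real.exp (-(X * Real.cosh u)) ≤ C * Real.exp (n * u) * Real.exp (-(X * Real.cosh u)) :=
        mul_le_mul_of_nonneg_right (h u hu) (Real.exp_pos _).le
    _ = C * (Real.exp (n * u) * Real.exp (-(X * Real.cosh u))) := by ring
    _ ≤ _ := mul_le_mul_of_nonneg_left (dom X hX n u) hC

lemma int_smul (X c : ℝ) {f : ℝ → ℝ}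
    (hf : IntegrableOn (fun u : ℝ => f u * Real.exp (-(X * Real.cosh u))) (Ioi 0)) :
    IntegrableOn (fun u : ℝ => c * f u * Real.exp (-(X * Real.cosh u))) (Ioi 0) := by
  have h : IntegrableOn (fun u : ℝ => c * (f u * Real.exp (-(X * Real.cosh u)))) (Ioi 0) := hf.const_mul c
  exact h.congr_fun (fun u _ => by ring) measurableSet_Ioi

lemma int_add (X : ℝ) {f g : ℝ → ℝ}
    (hf : IntegrableOn (fun u : ℝ => f u * Real.exp (-(X * Real.cosh u))) (Ioi 0))
    (hg : IntegrableOn (fun u : ℝ => g u * Real.exp (-(X * Real.cosh u))) (Ioi 0)) :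
    IntegrableOn (fun u : ℝ => (f u + g u) * Real.exp (-(X * Real.cosh u))) (Ioi 0) := by
  have h : IntegrableOn (fun u : ℝ => f u * Real.exp (-(X * Real.cosh u)) +
    g u * Real.exp (-(X * Real.cosh u))) (Ioi 0) := hf.add hg
  exact h.congr_fun (fun u _ => by ring) measurableSet_Ioi

lemma int_sub (X : ℝ) {f g : ℝ → ℝ}
    (hf : IntegrableOn (fun u : ℝ => f u * Real.exp (-(X * Real.cosh u))) (Ioi 0))
    (hg : IntegrableOn (fun u : ℝ => g u * Real.exp (-(X * Real.cosh u))) (Ioi 0)) :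
    IntegrableOn (fun u : ℝ => (f u - g u) * Real.exp (-(X * Real.cosh u))) (Ioi 0) := by
  have h : IntegrableOn (fun u : ℝ => f u * Real.exp (-(X * Real.cosh u)) -
    g u * Real.exp (-(X * Real.cosh u))) (Ioi 0) := hf.sub hg
  exact h.congr_fun (fun u _ => by ring) measurableSet_Ioi

/-- the weighted integral -/
noncomputable def Mt (X : ℝ) (f : ℝ → ℝ) : ℝ := ∫ u in Ioi (0 : ℝ), f u * Real.exp (-(X * Real.cosh u))

lemma Mt_parts (X : ℝ) (hX : 0 < X) (n : ℕ) (C : ℝ) (f f' : ℝ → ℝ) (hf : Continuous f) (hf' : Continuous f')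
    (hd : ∀ u, HasDerivAt f (f' u) u) (h0 : f 0 = 0)
    (h : ∀ u, 0 < u → |f u| ≤ C * Real.exp (n * u))
    (h' : ∀ u, 0 < u → |f' u - X * (f u * Real.sinh u)| ≤ C * Real.exp (n * u)) :
    Mt X (fun u => f' u - X * (f u * Real.sinh u)) = 0 := by
  unfold Mt
  have h1 : ∀ u ∈ Ici (0 : ℝ), HasDerivAt (fun u => f u * Real.exp (-(X * Real.cosh u)))
      ((f' u - X * (f u * Real.sinh u)) * Real.exp (-(X * Real.cosh u))) u := by
    intro u _
    have h2 : HasDerivAt (fun u => Real.exp (-(X * Real.cosh u)))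
        (Real.exp (-(X * Real.cosh u)) * (-(X * Real.sinh u))) u :=
      (((Real.hasDerivAt_cosh u).const_mul X).neg).exp
    have h4 := (hd u).mul h2
    have e1 : (f' u - X * (f u * Real.sinh u)) * Real.exp (-(X * Real.cosh u))
        = f' u * Real.exp (-(X * Real.cosh u)) + f u * (Real.exp (-(X * Real.cosh u)) * (-(X * Real.sinh u))) := by
      ring
    rw [e1]
    exact h4
  have h3 := integral_Ioi_of_hasDerivAt_of_tendsto' h1
    (int_of_le X hX n C _ (by fun_prop) h') (tendsto_of_le X hX n C f h)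
  rw [h3, h0]
  simp

lemma Kf_zero (X : ℝ) : Kf 0 X = Mt X (fun _ => 1) := by
  unfold Kf Mt
  congr 1
  ext u
  simp

lemma Mt_mono (X : ℝ) (f g : ℝ → ℝ)
    (hf : IntegrableOn (fun u : ℝ => f u * Real.exp (-(X * Real.cosh u))) (Ioi 0))
    (hg : IntegrableOn (fun u : ℝ => g u * Real.exp (-(X * Real.cosh u))) (Ioi 0))
    (h : ∀ u, 0 < u → f u ≤ g u) : Mt X f ≤ Mt X g := by
  unfold Mt
  apply setIntegral_mono_on hf hg measurableSet_Ioi
  intro u hu
  exact mul_le_mul_of_nonneg_right (h u hu) (Real.exp_pos _).le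

lemma Mt_add (X : ℝ) (f g : ℝ → ℝ)
    (hf : IntegrableOn (fun u : ℝ => f u * Real.exp (-(X * Real.cosh u))) (Ioi 0))
    (hg : IntegrableOn (fun u : ℝ => g u * Real.exp (-(X * Real.cosh u))) (Ioi 0)) :
    Mt X (fun u => f u + g u) = Mt X f + Mt X g := by
  unfold Mt
  rw [← integral_add hf hg]
  congr 1
  ext u
  ring

lemma Mt_smul (X c : ℝ) (f : ℝ → ℝ) : Mt X (fun u => c * f u) = c * Mt X f := by
  unfold Mt
  rw [← integral_const_mul]
  congr 1
  ext u
  ring

lemma Mt_sub (X : ℝ) (f g : ℝ → ℝ)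
    (hf : IntegrableOn (fun u : ℝ => f u * Real.exp (-(X * Real.cosh u))) (Ioi 0))
    (hg : IntegrableOn (fun u : ℝ => g u * Real.exp (-(X * Real.cosh u))) (Ioi 0)) :
    Mt X (fun u => f u - g u) = Mt X f - Mt X g := by
  unfold Mt
  rw [← integral_sub hf hg]
  congr 1
  ext u
  ring

lemma one_le_exp {u : ℝ} (hu : 0 < u) (n : ℕ) : 1 ≤ Real.exp (n * u) :=
  Real.one_le_exp (by positivity)

lemma sc_bound (a b : ℕ) {u : ℝ} (hu : 0 < u) :
    |Real.sinh u ^ a * Real.cosh u ^ b| ≤ Real.exp ((a + b : ℕ) * u) := by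
  have h1 : 0 ≤ Real.sinh u := Real.sinh_nonneg_iff.mpr hu.le
  have h2 : 0 ≤ Real.cosh u := (Real.cosh_pos u).le
  rw [abs_of_nonneg (by positivity), Real.exp_nat_mul, pow_add]
  gcongr
  · exact sinh_le_exp
  · exact cosh_le_exp hu.le

lemma sc_int (X : ℝ) (hX : 0 < X) (a b : ℕ) :
    IntegrableOn (fun u : ℝ => (Real.sinh u ^ a * Real.cosh u ^ b) * Real.exp (-(X * Real.cosh u))) (Ioi 0) :=
  int_of_le X hX (a + b) 1 _ (by fun_prop) (fun u hu => by rw [one_mul]; exact sc_bound a b hu)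

/-- moments of hyperbolic functions -/
noncomputable def sc (X : ℝ) (a b : ℕ) : ℝ := Mt X (fun u => Real.sinh u ^ a * Real.cosh u ^ b)

lemma sc_nonneg (X : ℝ) (a b : ℕ) : 0 ≤ sc X a b := by
  unfold sc Mt
  apply setIntegral_nonneg measurableSet_Ioi
  intro u hu
  have h1 : 0 ≤ Real.sinh u := Real.sinh_nonneg_iff.mpr (le_of_lt hu)
  have h2 : 0 ≤ Real.cosh u := (Real.cosh_pos u).le
  positivity

lemma id1 (X : ℝ) (hX : 0 < X) : sc X 0 1 = X * sc X 2 0 := by
  have h := Mt_parts X hX 2 (1 + X) (fun u => Real.sinh u) (fun u => Real.cosh u) (by fun_prop) (by fun_prop)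
    (fun u => Real.hasDerivAt_sinh u) (by simp)
    (fun u hu => by
      have h1 := sc_bound 1 0 hu
      simp only [pow_one, pow_zero, mul_one, Nat.cast_one, Nat.cast_add, Nat.cast_zero, add_zero, one_mul] at h1
      calc |Real.sinh u| ≤ Real.exp u := h1
        _ ≤ Real.exp ((2 : ℕ) * u) := Real.exp_le_exp.mpr (by push_cast; linarith)
        _ ≤ (1 + X) * Real.exp ((2 : ℕ) * u) := by nlinarith [Real.exp_pos ((2 : ℕ) * u)])
    (fun u hu => by
      have h1 := sc_bound 0 1 hu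
      have h2 := sc_bound 2 0 hu
      simp only [pow_one, pow_zero, mul_one, one_mul, zero_add, add_zero, Nat.cast_one] at h1 h2
      have h3 : Real.exp u ≤ Real.exp ((2 : ℕ) * u) := Real.exp_le_exp.mpr (by push_cast; linarith)
      calc |Real.cosh u - X * (Real.sinh u * Real.sinh u)| ≤ |Real.cosh u| + |X * (Real.sinh u * Real.sinh u)| :=
            abs_sub _ _
        _ = |Real.cosh u| + X * |Real.sinh u ^ 2| := by rw [abs_mul, abs_of_pos hX, ← sq]
        _ ≤ Real.exp ((2 : ℕ) * u) + X * Real.exp ((2 : ℕ) * u) := by gcongr; exact h1.trans h3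
        _ = _ := by ring)
  have h2 : Mt X (fun u => Real.cosh u - X * (Real.sinh u * Real.sinh u)) = sc X 0 1 - X * sc X 2 0 := by
    unfold sc
    rw [← Mt_smul, ← Mt_sub]
    · congr 1
      ext u
      ring
    · exact sc_int X hX 0 1
    · exact int_smul X X (sc_int X hX 2 0)
  rw [h2] at h
  linarith

lemma id2 (X : ℝ) (hX : 0 < X) : 3 * sc X 2 1 = X * sc X 4 0 := by
  have h := Mt_parts X hX 4 (3 + X) (fun u => Real.sinh u ^ 3) (fun u => 3 * (Real.sinh u ^ 2 * Real.cosh u))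
    (by fun_prop) (by fun_prop)
    (fun u => by
      have h := (Real.hasDerivAt_sinh u).pow 3
      have e1 : 3 * (Real.sinh u ^ 2 * Real.cosh u) = ((3 : ℕ) : ℝ) * Real.sinh u ^ (3 - 1) * Real.cosh u := by
        push_cast
        ring
      rw [e1]
      exact h) (by simp)
    (fun u hu => by
      have h1 := sc_bound 3 0 hu
      simp only [pow_zero, mul_one, add_zero] at h1
      calc |Real.sinh u ^ 3| ≤ Real.exp ((3 : ℕ) * u) := h1
        _ ≤ Real.exp ((4 : ℕ) * u) := Real.exp_le_exp.mpr (by push_cast; linarith)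
        _ ≤ (3 + X) * Real.exp ((4 : ℕ) * u) := by nlinarith [Real.exp_pos ((4 : ℕ) * u)])
    (fun u hu => by
      have h1 := sc_bound 2 1 hu
      have h2 := sc_bound 4 0 hu
      simp only [pow_one, pow_zero, mul_one, add_zero] at h1 h2
      have h3 : Real.exp ((2 + 1 : ℕ) * u) ≤ Real.exp ((4 : ℕ) * u) :=
        Real.exp_le_exp.mpr (by push_cast; linarith)
      calc |3 * (Real.sinh u ^ 2 * Real.cosh u) - X * (Real.sinh u ^ 3 * Real.sinh u)| ≤
            |3 * (Real.sinh u ^ 2 * Real.cosh u)| + |X * (Real.sinh u ^ 3 * Real.sinh u)| := abs_sub _ _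
        _ = 3 * |Real.sinh u ^ 2 * Real.cosh u| + X * |Real.sinh u ^ 4| := by
            rw [abs_mul, abs_mul X, abs_of_pos hX, ← pow_succ]
            norm_num
        _ ≤ 3 * Real.exp ((4 : ℕ) * u) + X * Real.exp ((4 : ℕ) * u) := by gcongr; exact h1.trans h3
        _ = _ := by ring)
  have h2 : Mt X (fun u => 3 * (Real.sinh u ^ 2 * Real.cosh u) - X * (Real.sinh u ^ 3 * Real.sinh u))
      = 3 * sc X 2 1 - X * sc X 4 0 := by
    unfold sc
    rw [← Mt_smul, ← Mt_smul, ← Mt_sub]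
    · congr 1
      ext u
      ring
    · exact int_smul X 3 (sc_int X hX 2 1)
    · exact int_smul X X (sc_int X hX 4 0)
  rw [h2] at h
  linarith

lemma id3 (X : ℝ) (hX : 0 < X) : sc X 0 0 + 2 * sc X 2 0 = X * sc X 2 1 := by
  have h := Mt_parts X hX 3 (3 + X) (fun u => Real.sinh u * Real.cosh u)
    (fun u => Real.cosh u * Real.cosh u + Real.sinh u * Real.sinh u)
    (by fun_prop) (by fun_prop)
    (fun u => (Real.hasDerivAt_sinh u).mul (Real.hasDerivAt_cosh u)) (by simp)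
    (fun u hu => by
      have h1 := sc_bound 1 1 hu
      simp only [pow_one] at h1
      calc |Real.sinh u * Real.cosh u| ≤ Real.exp ((1 + 1 : ℕ) * u) := h1
        _ ≤ Real.exp ((3 : ℕ) * u) := Real.exp_le_exp.mpr (by push_cast; linarith)
        _ ≤ (3 + X) * Real.exp ((3 : ℕ) * u) := by nlinarith [Real.exp_pos ((3 : ℕ) * u)])
    (fun u hu => by
      have h1 := sc_bound 2 1 hu
      have h2 := sc_bound 2 0 hu
      have h2' := sc_bound 0 2 hu
      simp only [pow_one, pow_zero, mul_one, one_mul, add_zero, zero_add] at h1 h2 h2'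
      have h3 : Real.exp ((2 : ℕ) * u) ≤ Real.exp ((3 : ℕ) * u) :=
        Real.exp_le_exp.mpr (by push_cast; linarith)
      calc |Real.cosh u * Real.cosh u + Real.sinh u * Real.sinh u - X * (Real.sinh u * Real.cosh u * Real.sinh u)| ≤
            |Real.cosh u * Real.cosh u + Real.sinh u * Real.sinh u| + |X * (Real.sinh u * Real.cosh u * Real.sinh u)| :=
              abs_sub _ _
        _ ≤ (|Real.cosh u * Real.cosh u| + |Real.sinh u * Real.sinh u|) + |X * (Real.sinh u * Real.cosh u * Real.sinh u)| := by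
            gcongr
            exact abs_add_le _ _
        _ = |Real.cosh u ^ 2| + |Real.sinh u ^ 2| + X * |Real.sinh u ^ 2 * Real.cosh u| := by
            rw [abs_mul X, abs_of_pos hX, ← sq, ← sq]
            congr 3
            ring
        _ ≤ Real.exp ((3 : ℕ) * u) + Real.exp ((3 : ℕ) * u) + X * Real.exp ((3 : ℕ) * u) := by
            have e1 := h2'.trans h3
            have e2 := h2.trans h3
            have e3 : |Real.sinh u ^ 2 * Real.cosh u| ≤ Real.exp ((3 : ℕ) * u) := h1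
            gcongr
        _ ≤ _ := by nlinarith [Real.exp_pos ((3 : ℕ) * u)])
  have h2 : Mt X (fun u => Real.cosh u * Real.cosh u + Real.sinh u * Real.sinh u - X * (Real.sinh u * Real.cosh u * Real.sinh u))
      = (sc X 0 0 + 2 * sc X 2 0) - X * sc X 2 1 := by
    have i0 := sc_int X hX 0 0
    have i1 := sc_int X hX 2 0
    have i2 := sc_int X hX 2 1
    unfold sc
    rw [← Mt_smul, ← Mt_smul, ← Mt_add, ← Mt_sub]
    · congr 1
      ext u
      have := Real.cosh_sq u
      linear_combination this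
    · exact int_add X i0 (int_smul X 2 i1)
    · exact int_smul X X i2
    · exact i0
    · exact int_smul X 2 i1
  rw [h2] at h
  linarith

lemma sc00 (X : ℝ) : sc X 0 0 = Kf 0 X := by
  rw [Kf_zero]
  unfold sc
  simp

lemma Kf0_pos (X : ℝ) (hX : 0 < X) : 0 < Kf 0 X := by
  rw [← sc00]
  unfold sc Mt
  have hint := sc_int X hX 0 0
  rw [setIntegral_pos_iff_support_of_nonneg_ae]
  · have : (Function.support fun u : ℝ => Real.sinh u ^ 0 * Real.cosh u ^ 0 * Real.exp (-(X * Real.cosh u))) = univ := by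
      ext u
      simp [(Real.exp_pos _).ne']
    rw [this, univ_inter]
    simp
  · filter_upwards with u
    simp only [pow_zero, Pi.zero_apply]
    positivity
  · exact hint

/-- bounds of the moments -/
lemma c0_bound (X : ℝ) (hX : 1 ≤ X) : Kf 0 X ≤ sc X 0 1 ∧ sc X 0 1 ≤ Kf 0 X * (1 + 1 / X) := by
  have hX0 : 0 < X := by linarith
  have i0 := sc_int X hX0 0 0
  have i1 := sc_int X hX0 2 0
  have i2 := sc_int X hX0 0 1
  have h1 : sc X 0 0 ≤ sc X 0 1 := by
    unfold sc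
    apply Mt_mono X _ _ i0 i2
    intro u _
    simpa using Real.one_le_cosh u
  have h2 : sc X 0 1 ≤ sc X 0 0 + 1 / 2 * sc X 2 0 := by
    unfold sc
    rw [← Mt_smul, ← Mt_add]
    · apply Mt_mono X _ _ i2
      · exact int_add X i0 (int_smul X (1 / 2) i1)
      · intro u _
        have h3 := Real.one_le_cosh u
        have h4 := Real.cosh_sq u
        simp only [pow_zero, pow_one, one_mul, mul_one]
        nlinarith
    · exact i0
    · exact int_smul X (1 / 2) i1
  have h3 := id1 X hX0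
  rw [sc00] at h1 h2
  refine ⟨h1, ?_⟩
  have h4 : 0 < Kf 0 X := Kf0_pos X hX0
  have h5 : sc X 2 0 = sc X 0 1 / X := by rw [h3]; field_simp
  rw [h5] at h2
  have h6 : sc X 0 1 * (2 * X - 1) ≤ 2 * X * Kf 0 X := by
    have : 2 * X * sc X 0 1 ≤ 2 * X * (Kf 0 X + 1 / 2 * (sc X 0 1 / X)) := by gcongr
    have e1 : 2 * X * (Kf 0 X + 1 / 2 * (sc X 0 1 / X)) = 2 * X * Kf 0 X + sc X 0 1 := by
      field_simp
    rw [e1] at this
    linarith
  have h7 : (0 : ℝ) < 2 * X - 1 := by linarith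
  have h8 : sc X 0 1 ≤ 2 * X * Kf 0 X / (2 * X - 1) := by
    rw [le_div_iff₀ h7]
    exact h6
  refine h8.trans ?_
  rw [div_le_iff₀ h7]
  have e2 : Kf 0 X * (1 + 1 / X) * (2 * X - 1) = Kf 0 X * (2 * X + 1 - 1 / X) := by
    field_simp
    ring
  rw [e2]
  have : 1 / X ≤ 1 := by rw [div_le_one hX0]; exact hX
  nlinarith

lemma sc20_bound (X : ℝ) (hX : 1 ≤ X) : Kf 0 X / X ≤ sc X 2 0 ∧ sc X 2 0 ≤ Kf 0 X * (1 / X + 1 / X ^ 2) := by
  have hX0 : 0 < X := by linarith
  have h3 := id1 X hX0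
  have h5 : sc X 2 0 = sc X 0 1 / X := by rw [h3]; field_simp
  obtain ⟨h1, h2⟩ := c0_bound X hX
  rw [h5]
  constructor
  · gcongr
  · calc sc X 0 1 / X ≤ Kf 0 X * (1 + 1 / X) / X := by gcongr
      _ = _ := by field_simp

lemma sc40_bound (X : ℝ) (hX : 1 ≤ X) : sc X 4 0 ≤ 15 * Kf 0 X / X ^ 2 := by
  have hX0 : 0 < X := by linarith
  have h2 := id2 X hX0
  have h3 := id3 X hX0
  obtain ⟨_, h4⟩ := sc20_bound X hX
  have h5 : 0 < Kf 0 X := Kf0_pos X hX0
  rw [sc00] at h3
  have h6 : sc X 4 0 = 3 * (Kf 0 X + 2 * sc X 2 0) / X ^ 2 := by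
    rw [h3]
    have : X * (X * sc X 4 0) = X * (3 * sc X 2 1) := by rw [h2]
    field_simp
    linarith
  rw [h6]
  have h7 : 1 / X + 1 / X ^ 2 ≤ 2 := by
    have e1 : 1 / X ≤ 1 := by rw [div_le_one hX0]; exact hX
    have e2 : 1 / X ^ 2 ≤ 1 := by
      rw [div_le_one (by positivity)]
      nlinarith
    linarith
  have h8 : sc X 2 0 ≤ Kf 0 X * 2 := h4.trans (by gcongr)
  have h9 : 3 * (Kf 0 X + 2 * sc X 2 0) ≤ 15 * Kf 0 X := by linarith
  exact div_le_div_of_nonneg_right h9 (by positivity)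

/-- `0 ≤ sinh² u - u² ≤ sinh⁴ u / 3` -/
lemma sinh_sq_sub {u : ℝ} (hu : 0 ≤ u) : u ^ 2 ≤ Real.sinh u ^ 2 ∧ Real.sinh u ^ 2 - u ^ 2 ≤ Real.sinh u ^ 4 / 3 := by
  have hs : u ≤ Real.sinh u := Real.self_le_sinh_iff.mpr hu
  refine ⟨by gcongr, ?_⟩
  -- `sinh u - u ≤ sinh³ u / 6`
  have h1 : Real.sinh u - u ≤ Real.sinh u ^ 3 / 6 := by
    have hmono : MonotoneOn (fun v : ℝ => Real.sinh v ^ 3 / 6 - Real.sinh v + v) (Ici 0) := by
      apply monotoneOn_of_deriv_nonneg (convex_Ici 0)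
      · fun_prop
      · fun_prop
      · intro v hv
        have hd : HasDerivAt (fun v : ℝ => Real.sinh v ^ 3 / 6 - Real.sinh v + v)
            ((((3 : ℕ) : ℝ) * Real.sinh v ^ 2 * Real.cosh v) / 6 - Real.cosh v + 1) v :=
          ((((Real.hasDerivAt_sinh v).pow 3).div_const 6).sub (Real.hasDerivAt_sinh v)).add (hasDerivAt_id v)
        rw [hd.deriv]
        have h2 := Real.cosh_sq v
        have h3 := Real.one_le_cosh v
        have h4 : Real.sinh v ^ 2 = Real.cosh v ^ 2 - 1 := by linarith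
        rw [h4]
        push_cast
        nlinarith [mul_nonneg (sub_nonneg.mpr h3) (sub_nonneg.mpr h3)]
    have := hmono (mem_Ici.mpr le_rfl) (mem_Ici.mpr hu) hu
    simp only [Real.sinh_zero] at this
    norm_num at this
    linarith
  have h2 : 0 ≤ Real.sinh u := hu.trans hs
  calc Real.sinh u ^ 2 - u ^ 2 = (Real.sinh u - u) * (Real.sinh u + u) := by ring
    _ ≤ (Real.sinh u ^ 3 / 6) * (2 * Real.sinh u) := by
        apply mul_le_mul h1 (by linarith) (by linarith) (by positivity)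
    _ = _ := by ring

lemma cos_exp (v : ℝ) : |Real.cos v - 1 + v ^ 2 / 2| ≤ v ^ 4 / 2 := by
  have h1 := Real.one_sub_sq_div_two_le_cos (x := v)
  rw [abs_of_nonneg (by linarith)]
  rcases le_or_gt |v| 1 with h | h
  · have h2 := Real.cos_bound h
    have h3 := (abs_le.mp h2).2
    have h4 : |v| ^ 4 = v ^ 4 := by
      rw [show (4 : ℕ) = 2 * 2 by norm_num, pow_mul, pow_mul, sq_abs]
    rw [h4] at h3
    have h5 : 0 ≤ v ^ 4 := by positivity
    nlinarith
  · have h2 := Real.cos_le_one v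
    have h3 : 1 ≤ v ^ 2 := by
      rw [← sq_abs]
      nlinarith
    nlinarith

lemma pow_bound (k : ℕ) {u : ℝ} (hu : 0 < u) : |u ^ k| ≤ Real.exp (k * u) := by
  rw [abs_of_nonneg (by positivity), Real.exp_nat_mul]
  gcongr
  have := Real.add_one_le_exp u
  linarith

lemma pow_int (X : ℝ) (hX : 0 < X) (k : ℕ) :
    IntegrableOn (fun u : ℝ => u ^ k * Real.exp (-(X * Real.cosh u))) (Ioi 0) :=
  int_of_le X hX k 1 _ (by fun_prop) (fun u hu => by rw [one_mul]; exact pow_bound k hu)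

lemma cos_int (X : ℝ) (hX : 0 < X) (μ : ℝ) :
    IntegrableOn (fun u : ℝ => Real.cos (μ * u) * Real.exp (-(X * Real.cosh u))) (Ioi 0) :=
  int_of_le X hX 0 1 _ (by fun_prop) (fun u _ => by
    simpa using Real.abs_cos_le_one (μ * u))

lemma Kf_eq (μ X : ℝ) : Kf μ X = Mt X (fun u => Real.cos (μ * u)) := by
  unfold Kf Mt
  congr 1
  ext u
  ring

lemma Kf_abs_le (μ X : ℝ) (hX : 0 < X) : |Kf μ X| ≤ Kf 0 X := by
  rw [Kf_eq, Kf_zero]
  have h1 : |Mt X (fun u => Real.cos (μ * u))| ≤ Mt X (fun _ => 1) := by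
    unfold Mt
    refine (abs_integral_le_integral_abs).trans ?_
    have i0 := pow_int X hX 0
    simp only [pow_zero] at i0
    apply setIntegral_mono_on (cos_int X hX μ).abs i0 measurableSet_Ioi
    intro u _
    rw [abs_mul, abs_of_pos (Real.exp_pos _)]
    gcongr
    exact Real.abs_cos_le_one _
  exact h1

/-- the expansion of `Kf` -/
theorem Kf_expand (μ X : ℝ) (hX : 1 ≤ X) :
    |Kf μ X - Kf 0 X * (1 - μ ^ 2 / (2 * X))| ≤ 8 * (μ ^ 2 + μ ^ 4) / X ^ 2 * Kf 0 X := by
  have hX0 : 0 < X := by linarith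
  have hK : 0 < Kf 0 X := Kf0_pos X hX0
  set M2 := Mt X (fun u => u ^ 2) with hM2
  set M4 := Mt X (fun u => u ^ 4) with hM4
  have i0 := pow_int X hX0 0
  have i2 := pow_int X hX0 2
  have i4 := pow_int X hX0 4
  have s2 := sc_int X hX0 2 0
  have s4 := sc_int X hX0 4 0
  -- the moment expansion
  have h1 : |Kf μ X - Kf 0 X + μ ^ 2 / 2 * M2| ≤ μ ^ 4 / 2 * M4 := by
    have e1 : Kf μ X - Kf 0 X + μ ^ 2 / 2 * M2
        = ∫ u in Ioi (0 : ℝ), (Real.cos (μ * u) - 1 + (μ * u) ^ 2 / 2) * Real.exp (-(X * Real.cosh u)) := by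
      rw [Kf_eq, Kf_zero, hM2, ← Mt_smul]
      unfold Mt
      rw [← integral_sub, ← integral_add]
      · congr 1
        ext u
        ring
      · have h : IntegrableOn (fun u : ℝ => (Real.cos (μ * u) * Real.exp (-(X * Real.cosh u)) -
            1 * Real.exp (-(X * Real.cosh u)))) (Ioi 0) := by
          simp only [pow_zero] at i0
          exact (cos_int X hX0 μ).sub i0
        exact h
      · exact int_smul X (μ ^ 2 / 2) i2
      · exact cos_int X hX0 μ
      · simp only [pow_zero] at i0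
        exact i0
    rw [e1, hM4, ← Mt_smul]
    unfold Mt
    refine (abs_integral_le_integral_abs).trans ?_
    apply setIntegral_mono_on _ _ measurableSet_Ioi
    · intro u _
      rw [abs_mul, abs_of_pos (Real.exp_pos _)]
      gcongr
      refine (cos_exp (μ * u)).trans (le_of_eq ?_)
      ring
    · apply Integrable.abs
      have h := int_add X (int_sub X (cos_int X hX0 μ) i0) (int_smul X (μ ^ 2 / 2) i2)
      refine IntegrableOn.congr_fun h (fun u _ => ?_) measurableSet_Ioi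
      ring
    · exact int_smul X (μ ^ 4 / 2) i4
  -- the moments
  have h2 : M2 ≤ sc X 2 0 := by
    unfold sc
    apply Mt_mono X _ _ i2 s2
    intro u hu
    simpa using (sinh_sq_sub hu.le).1
  have h3 : sc X 2 0 - sc X 4 0 / 3 ≤ M2 := by
    have e1 : sc X 2 0 - sc X 4 0 / 3 = Mt X (fun u => Real.sinh u ^ 2 * Real.cosh u ^ 0 - (1 / 3) * (Real.sinh u ^ 4 * Real.cosh u ^ 0)) := by
      rw [Mt_sub, Mt_smul]
      · unfold sc; ring
      · exact s2
      · exact int_smul X (1 / 3) s4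
    rw [e1]
    apply Mt_mono X _ _ _ i2
    · intro u hu
      have := (sinh_sq_sub hu.le).2
      simp only [pow_zero, mul_one]
      linarith
    · exact int_sub X s2 (int_smul X (1 / 3) s4)
  have h4 : M4 ≤ sc X 4 0 := by
    unfold sc
    apply Mt_mono X _ _ i4 s4
    intro u hu
    have h5 := (sinh_sq_sub hu.le).1
    simp only [pow_zero, mul_one]
    calc u ^ 4 = (u ^ 2) ^ 2 := by ring
      _ ≤ (Real.sinh u ^ 2) ^ 2 := by gcongr
      _ = _ := by ring
  have h5 := sc20_bound X hX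
  have h6 := sc40_bound X hX
  have h7 : |M2 - Kf 0 X / X| ≤ 5 * Kf 0 X / X ^ 2 := by
    have e1 : Kf 0 X * (1 / X + 1 / X ^ 2) = Kf 0 X / X + Kf 0 X / X ^ 2 := by ring
    have e2 : 15 * Kf 0 X / X ^ 2 = 15 * (Kf 0 X / X ^ 2) := by ring
    have e3 : 5 * Kf 0 X / X ^ 2 = 5 * (Kf 0 X / X ^ 2) := by ring
    have e4 : 0 ≤ Kf 0 X / X ^ 2 := by positivity
    rw [e1] at h5
    rw [e2] at h6
    rw [e3, abs_le]
    constructor
    · linarith [h5.1]
    · linarith [h5.2]
  have e5 : Kf μ X - Kf 0 X * (1 - μ ^ 2 / (2 * X))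
      = (Kf μ X - Kf 0 X + μ ^ 2 / 2 * M2) - μ ^ 2 / 2 * (M2 - Kf 0 X / X) := by
    field_simp
    ring
  rw [e5]
  refine (abs_sub _ _).trans ?_
  have h8 : |μ ^ 2 / 2 * (M2 - Kf 0 X / X)| ≤ μ ^ 2 / 2 * (5 * Kf 0 X / X ^ 2) := by
    rw [abs_mul, abs_of_nonneg (by positivity)]
    gcongr
  have h9 : μ ^ 4 / 2 * M4 ≤ μ ^ 4 / 2 * (15 * Kf 0 X / X ^ 2) := by
    have := h4.trans h6
    gcongr
  refine (add_le_add (h1.trans h9) h8).trans ?_
  have e6 : μ ^ 4 / 2 * (15 * Kf 0 X / X ^ 2) + μ ^ 2 / 2 * (5 * Kf 0 X / X ^ 2)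
      = (5 / 2 * μ ^ 2 + 15 / 2 * μ ^ 4) / X ^ 2 * Kf 0 X := by
    ring
  rw [e6]
  gcongr
  nlinarith [sq_nonneg μ, sq_nonneg (μ ^ 2)]

lemma Kf_cont (X : ℝ) (hX : 0 < X) : Continuous (fun μ => Kf μ X) := by
  have h1 : (fun μ => Kf μ X) = fun μ => ∫ u in Ioi (0 : ℝ), Real.cos (μ * u) * Real.exp (-(X * Real.cosh u)) := by
    ext μ
    rw [Kf_eq]
    rfl
  rw [h1]
  have i0 := pow_int X hX 0
  simp only [pow_zero, one_mul] at i0
  apply continuous_of_dominated (bound := fun u => Real.exp (-(X * Real.cosh u)))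
  · intro μ
    exact (Continuous.aestronglyMeasurable (by fun_prop))
  · intro μ
    filter_upwards with u
    rw [Real.norm_eq_abs, abs_mul, abs_of_pos (Real.exp_pos _)]
    calc |Real.cos (μ * u)| * Real.exp (-(X * Real.cosh u)) ≤ 1 * Real.exp (-(X * Real.cosh u)) := by
          gcongr
          exact Real.abs_cos_le_one _
      _ = _ := one_mul _
  · exact i0
  · filter_upwards with u
    fun_prop

end Pool.Agent.N456.QD
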