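import Mathlib
import Pool.Agent.N456.QD.Kexp

/-!
Expansion of the integral in the wedge kernel (helper456, for helper275's project QD).
-/

set_option autoImplicit false

namespace Pool.Agent.N456.QD

open MeasureTheory Set Filter Topology
open scoped Real
open Pool.Agent.N275.QD

lemma Rf_nonneg {α μ : ℝ} (h0 : 0 < α) (h1 : α < π) (hμ : 0 < μ) : 0 ≤ Rf α μ := by
  unfold Rf
  apply div_nonneg
  · exact Real.sinh_nonneg_iff.mpr (by positivity)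
  · exact Real.sinh_nonneg_iff.mpr (mul_nonneg (by linarith) hμ.le)

lemma Rf_cont {α : ℝ} (h1 : α < π) : ContinuousOn (Rf α) (Ioi 0) := by
  unfold Rf
  apply ContinuousOn.div
  · fun_prop
  · fun_prop
  · intro μ hμ
    have h2 : 0 < (π - α) * μ := mul_pos (by linarith) hμ
    exact (Real.sinh_pos_iff.mpr h2).ne'

/-- `sinh a ≤ a cosh a` -/
lemma sinh_le_mul_cosh {a : ℝ} (ha : 0 ≤ a) : Real.sinh a ≤ a * Real.cosh a := by
  have hmono : MonotoneOn (fun v : ℝ => v * Real.cosh v - Real.sinh v) (Ici 0) := by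
    apply monotoneOn_of_deriv_nonneg (convex_Ici 0)
    · fun_prop
    · fun_prop
    · intro v hv
      have hv0 : 0 ≤ v := by
        rw [interior_Ici] at hv
        exact le_of_lt hv
      have hd : HasDerivAt (fun v : ℝ => v * Real.cosh v - Real.sinh v)
          ((1 * Real.cosh v + v * Real.sinh v) - Real.cosh v) v :=
        ((hasDerivAt_id v).mul (Real.hasDerivAt_cosh v)).sub (Real.hasDerivAt_sinh v)
      rw [hd.deriv]
      have := Real.sinh_nonneg_iff.mpr hv0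
      nlinarith [mul_nonneg hv0 this]
  have := hmono (mem_Ici.mpr le_rfl) (mem_Ici.mpr ha) ha
  simp only [Real.sinh_zero] at this
  norm_num at this
  linarith

lemma cosh_sub_one {a : ℝ} (ha : 0 ≤ a) : Real.cosh a - 1 ≤ a ^ 2 / 2 * Real.cosh a := by
  have h := Real.cosh_two_mul (a / 2)
  have h2 := Real.cosh_sq (a / 2)
  rw [show 2 * (a / 2) = a by ring] at h
  have h3 := sinh_le_mul_cosh (a := a / 2) (by linarith)
  have h4 : 0 ≤ Real.sinh (a / 2) := Real.sinh_nonneg_iff.mpr (by linarith)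
  have h5 : Real.sinh (a / 2) ^ 2 ≤ (a / 2 * Real.cosh (a / 2)) ^ 2 := pow_le_pow_left₀ h4 h3 2
  have h6 := Real.one_le_cosh a
  have h7 : Real.cosh (a / 2) ^ 2 = (Real.cosh a + 1) / 2 := by linarith
  have h8 : Real.sinh (a / 2) ^ 2 = (Real.cosh a - 1) / 2 := by linarith
  rw [mul_pow, h7, h8] at h5
  nlinarith [sq_nonneg a]

lemma sinh_sub {a : ℝ} (ha : 0 ≤ a) : 0 ≤ Real.sinh a - a ∧ Real.sinh a - a ≤ a ^ 3 / 2 * Real.cosh a := by
  constructor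
  · have := Real.self_le_sinh_iff.mpr ha
    linarith
  · have h1 := sinh_le_mul_cosh ha
    have h2 := cosh_sub_one ha
    nlinarith

lemma ss_bound {a b : ℝ} (ha : 0 ≤ a) (hb : 0 ≤ b) :
    |Real.sinh a * Real.sinh b - a * b| ≤ a * b * ((a ^ 2 + b ^ 2) / 2) * (Real.cosh a * Real.cosh b) := by
  obtain ⟨h1, h2⟩ := sinh_sub ha
  obtain ⟨h3, h4⟩ := sinh_sub hb
  have h5 : 0 ≤ Real.sinh b := Real.sinh_nonneg_iff.mpr hb
  have h6 := sinh_le_mul_cosh hb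
  have ca := Real.one_le_cosh a
  have cb := Real.one_le_cosh b
  have e1 : Real.sinh a * Real.sinh b - a * b = (Real.sinh a - a) * Real.sinh b + a * (Real.sinh b - b) := by ring
  rw [e1, abs_of_nonneg (by positivity)]
  calc (Real.sinh a - a) * Real.sinh b + a * (Real.sinh b - b)
      ≤ (a ^ 3 / 2 * Real.cosh a) * (b * Real.cosh b) + a * (b ^ 3 / 2 * Real.cosh b) := by gcongr
    _ ≤ (a ^ 3 / 2 * Real.cosh a) * (b * Real.cosh b) + a * (b ^ 3 / 2 * (Real.cosh a * Real.cosh b)) := by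
        have : Real.cosh b ≤ Real.cosh a * Real.cosh b := le_mul_of_one_le_left (by linarith) ca
        gcongr
    _ = _ := by ring

lemma cosh_mono {φ φ0 μ : ℝ} (h0 : 0 ≤ φ) (h : φ ≤ φ0) (hμ : 0 < μ) :
    Real.cosh (φ * μ) ≤ Real.cosh (φ0 * μ) := by
  rw [Real.cosh_le_cosh, abs_of_nonneg (by positivity), abs_of_nonneg (mul_nonneg (h0.trans h) hμ.le)]
  gcongr

theorem Bexp (hMO : S_MO) (α : ℝ) (h0 : 0 < α) (h1 : α < π / 2) : ∃ C φ0 : ℝ, 0 < C ∧ 0 < φ0 ∧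
    ∀ X φ φ' : ℝ, 1 ≤ X → 0 ≤ φ → φ ≤ φ0 → 0 ≤ φ' → φ' ≤ φ0 →
    |(∫ μ in Ioi (0 : ℝ), Kf μ X * Rf α μ * (Real.sinh (φ * μ) * Real.sinh (φ' * μ))) -
      Kf 0 X * (φ * φ') * (mm 2 α - mm 4 α / (2 * X))| ≤
      Kf 0 X * (φ * φ') * (C * (1 / X ^ 2 + φ ^ 2 + φ' ^ 2)) := by
  have hπ : α < π := by linarith [Real.pi_pos]
  obtain ⟨φ0, hφ0⟩ : ∃ φ0 : ℝ, φ0 = (π / 2 - α) / 2 := ⟨_, rfl⟩
  have hφ0p : 0 < φ0 := by rw [hφ0]; linarith
  have hφ0a : φ0 + α < π / 2 := by rw [hφ0]; linarith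
  obtain ⟨i2, m2⟩ := hMO.2.1 2 α h0 h1
  obtain ⟨i4, m4⟩ := hMO.2.1 4 α h0 h1
  obtain ⟨i6, m6⟩ := hMO.2.1 6 α h0 h1
  have j4 := hMO.1 4 α φ0 h0 hφ0p.le hφ0a
  have i46 : IntegrableOn (fun μ => μ ^ 4 * Rf α μ + μ ^ 6 * Rf α μ) (Ioi 0) := i4.add i6
  obtain ⟨J, hJ⟩ : ∃ J : ℝ, J = ∫ μ in Ioi (0 : ℝ), μ ^ 4 * Rf α μ * Real.cosh (φ0 * μ) ^ 2 := ⟨_, rfl⟩
  have hJ0 : 0 ≤ J := by
    rw [hJ]
    apply setIntegral_nonneg measurableSet_Ioi
    intro μ hμ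
    have := Rf_nonneg h0 hπ hμ
    have hμ0 : 0 < μ := hμ
    positivity
  refine ⟨J / 2 + 8 * (mm 4 α + mm 6 α), φ0, by positivity, hφ0p, ?_⟩
  intro X φ φ' hX hφ hφ1 hφ' hφ1'
  have hX0 : 0 < X := by linarith
  have hK : 0 < Kf 0 X := Kf0_pos X hX0
  set f : ℝ → ℝ := fun μ => Kf μ X * Rf α μ * (Real.sinh (φ * μ) * Real.sinh (φ' * μ)) with hf
  set g : ℝ → ℝ := fun μ => Kf 0 X * (φ * φ') * (μ ^ 2 * Rf α μ) -
    Kf 0 X * (φ * φ') / (2 * X) * (μ ^ 4 * Rf α μ) with hg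
  set h : ℝ → ℝ := fun μ => Kf 0 X * (φ * φ') * ((φ ^ 2 + φ' ^ 2) / 2) * (μ ^ 4 * Rf α μ * Real.cosh (φ0 * μ) ^ 2) +
    Kf 0 X * (φ * φ') * (8 / X ^ 2) * (μ ^ 4 * Rf α μ + μ ^ 6 * Rf α μ) with hh
  have hpt : ∀ μ ∈ Ioi (0 : ℝ), |f μ - g μ| ≤ h μ := by
    intro μ hμ
    have hμ0 : (0 : ℝ) < μ := hμ
    have hR := Rf_nonneg h0 hπ hμ
    have e1 : f μ - g μ = Kf μ X * Rf α μ * (Real.sinh (φ * μ) * Real.sinh (φ' * μ) - (φ * μ) * (φ' * μ)) +
        (Kf μ X - Kf 0 X * (1 - μ ^ 2 / (2 * X))) * ((φ * φ') * (μ ^ 2 * Rf α μ)) := by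
      simp only [hf, hg]
      field_simp
      ring
    rw [e1]
    refine (abs_add_le _ _).trans ?_
    have h2 := ss_bound (a := φ * μ) (b := φ' * μ) (by positivity) (by positivity)
    have h3 : |Kf μ X * Rf α μ * (Real.sinh (φ * μ) * Real.sinh (φ' * μ) - (φ * μ) * (φ' * μ))| ≤
        Kf 0 X * (φ * φ') * ((φ ^ 2 + φ' ^ 2) / 2) * (μ ^ 4 * Rf α μ * Real.cosh (φ0 * μ) ^ 2) := by
      rw [abs_mul, abs_mul, abs_of_nonneg hR]
      have hc : Real.cosh (φ * μ) * Real.cosh (φ' * μ) ≤ Real.cosh (φ0 * μ) ^ 2 := by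
        rw [sq]
        have c1 := cosh_mono hφ hφ1 hμ0
        have c2 := cosh_mono hφ' hφ1' hμ0
        have := Real.cosh_pos (φ' * μ)
        have := Real.cosh_pos (φ0 * μ)
        gcongr
      calc |Kf μ X| * Rf α μ * |Real.sinh (φ * μ) * Real.sinh (φ' * μ) - (φ * μ) * (φ' * μ)|
          ≤ Kf 0 X * Rf α μ * ((φ * μ) * (φ' * μ) * (((φ * μ) ^ 2 + (φ' * μ) ^ 2) / 2) *
            (Real.cosh (φ * μ) * Real.cosh (φ' * μ))) := by
            have := Kf_abs_le μ X hX0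
            gcongr
        _ ≤ Kf 0 X * Rf α μ * ((φ * μ) * (φ' * μ) * (((φ * μ) ^ 2 + (φ' * μ) ^ 2) / 2) *
            Real.cosh (φ0 * μ) ^ 2) := by gcongr
        _ = _ := by ring
    have h4 : |(Kf μ X - Kf 0 X * (1 - μ ^ 2 / (2 * X))) * ((φ * φ') * (μ ^ 2 * Rf α μ))| ≤
        Kf 0 X * (φ * φ') * (8 / X ^ 2) * (μ ^ 4 * Rf α μ + μ ^ 6 * Rf α μ) := by
      rw [abs_mul, abs_of_nonneg (show 0 ≤ (φ * φ') * (μ ^ 2 * Rf α μ) by positivity)]
      calc |Kf μ X - Kf 0 X * (1 - μ ^ 2 / (2 * X))| * ((φ * φ') * (μ ^ 2 * Rf α μ))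
          ≤ (8 * (μ ^ 2 + μ ^ 4) / X ^ 2 * Kf 0 X) * ((φ * φ') * (μ ^ 2 * Rf α μ)) := by
            have := Kf_expand μ X hX
            gcongr
        _ = _ := by ring
    exact add_le_add h3 h4
  have ig : IntegrableOn g (Ioi 0) := (i2.const_mul _).sub (i4.const_mul _)
  have ih : IntegrableOn h (Ioi 0) := (j4.const_mul _).add (i46.const_mul _)
  have mf : AEStronglyMeasurable f (volume.restrict (Ioi 0)) := by
    apply ContinuousOn.aestronglyMeasurable _ measurableSet_Ioi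
    simp only [hf]
    apply ContinuousOn.mul
    · exact (Kf_cont X hX0).continuousOn.mul (Rf_cont hπ)
    · fun_prop
  have ifg : IntegrableOn (fun μ => f μ - g μ) (Ioi 0) := by
    refine ih.mono' (mf.sub ig.aestronglyMeasurable) ?_
    rw [ae_restrict_iff' measurableSet_Ioi]
    filter_upwards with μ hμ
    rw [Real.norm_eq_abs]
    exact hpt μ hμ
  have iff' : IntegrableOn f (Ioi 0) := by
    have := ifg.add ig
    refine IntegrableOn.congr_fun this (fun μ _ => ?_) measurableSet_Ioi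
    simp only [Pi.add_apply]
    ring
  have eg : ∫ μ in Ioi (0 : ℝ), g μ = Kf 0 X * (φ * φ') * (mm 2 α - mm 4 α / (2 * X)) := by
    simp only [hg]
    rw [integral_sub (i2.const_mul _) (i4.const_mul _), integral_const_mul, integral_const_mul]
    unfold mm
    ring
  have eh : ∫ μ in Ioi (0 : ℝ), h μ = Kf 0 X * (φ * φ') * ((φ ^ 2 + φ' ^ 2) / 2) * J +
      Kf 0 X * (φ * φ') * (8 / X ^ 2) * (mm 4 α + mm 6 α) := by
    simp only [hh]
    rw [integral_add (j4.const_mul _) (i46.const_mul _), integral_const_mul, integral_const_mul,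
      integral_add i4 i6, hJ]
    unfold mm
    rfl
  rw [← eg, ← integral_sub iff' ig]
  calc |∫ μ in Ioi (0 : ℝ), (f μ - g μ)| ≤ ∫ μ in Ioi (0 : ℝ), |f μ - g μ| := abs_integral_le_integral_abs
    _ ≤ ∫ μ in Ioi (0 : ℝ), h μ := setIntegral_mono_on ifg.abs ih measurableSet_Ioi hpt
    _ = _ := eh
    _ ≤ _ := by
        have e1 : Kf 0 X * (φ * φ') * ((φ ^ 2 + φ' ^ 2) / 2) * J +
            Kf 0 X * (φ * φ') * (8 / X ^ 2) * (mm 4 α + mm 6 α)
            = Kf 0 X * (φ * φ') * (J / 2 * (φ ^ 2 + φ' ^ 2) + 8 * (mm 4 α + mm 6 α) * (1 / X ^ 2)) := by ring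
        rw [e1]
        have e2 : J / 2 * (φ ^ 2 + φ' ^ 2) + 8 * (mm 4 α + mm 6 α) * (1 / X ^ 2) ≤
            (J / 2 + 8 * (mm 4 α + mm 6 α)) * (1 / X ^ 2 + φ ^ 2 + φ' ^ 2) := by
          have a1 : 0 ≤ J / 2 * (1 / X ^ 2) := by positivity
          have a2 : 0 ≤ 8 * (mm 4 α + mm 6 α) * (φ ^ 2 + φ' ^ 2) := by positivity
          nlinarith
        gcongr

/-- in terms of the kernels -/
theorem Gf_B (hMO : S_MO) (α : ℝ) (h0 : 0 < α) (h1 : α < π / 2) : ∃ C φ0 : ℝ, 0 < C ∧ 0 < φ0 ∧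
    ∀ (τ : ℝ) (z w : ℂ), 0 < τ → 0 < Complex.arg z → Complex.arg z ≤ φ0 → 0 < Complex.arg w → Complex.arg w ≤ φ0 →
    2 * τ ≤ ‖z‖ * ‖w‖ → ∃ B : ℝ, Gf α τ z w = Th τ z w * (Complex.arg z * Complex.arg w) * B ∧
    |B - (mm 2 α - mm 4 α * (τ / (‖z‖ * ‖w‖)))| ≤
      C * ((2 * τ / (‖z‖ * ‖w‖)) ^ 2 + Complex.arg z ^ 2 + Complex.arg w ^ 2) := by
  obtain ⟨C, φ0, hC, hφ0, H⟩ := Bexp hMO α h0 h1
  refine ⟨C, φ0, hC, hφ0, ?_⟩
  intro τ z w hτ hz hz1 hw hw1 hX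
  have hX' : 1 ≤ ‖z‖ * ‖w‖ / (2 * τ) := by
    rw [le_div_iff₀ (by positivity)]
    linarith
  have hX0 : 0 < ‖z‖ * ‖w‖ / (2 * τ) := by linarith
  have hzw : 0 < ‖z‖ * ‖w‖ := by linarith
  have h2 := H (‖z‖ * ‖w‖ / (2 * τ)) (Complex.arg z) (Complex.arg w) hX' hz.le hz1 hw.le hw1
  set X := ‖z‖ * ‖w‖ / (2 * τ) with hXdef
  set Y := ∫ μ in Ioi (0 : ℝ), Kf μ X * Rf α μ * (Real.sinh (Complex.arg z * μ) * Real.sinh (Complex.arg w * μ)) with hY
  have hK : 0 < Kf 0 X := Kf0_pos X hX0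
  have hQ : 0 < Kf 0 X * (Complex.arg z * Complex.arg w) := by positivity
  refine ⟨Y / (Kf 0 X * (Complex.arg z * Complex.arg w)), ?_, ?_⟩
  · unfold Gf Th
    rw [← hXdef, ← hY]
    field_simp
  · have e1 : τ / (‖z‖ * ‖w‖) = 1 / (2 * X) := by
      rw [hXdef]
      field_simp
    have e2 : 2 * τ / (‖z‖ * ‖w‖) = 1 / X := by
      rw [hXdef]
      field_simp
    rw [e1, e2]
    have e3 : Y / (Kf 0 X * (Complex.arg z * Complex.arg w)) - (mm 2 α - mm 4 α * (1 / (2 * X)))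
        = (Y - Kf 0 X * (Complex.arg z * Complex.arg w) * (mm 2 α - mm 4 α / (2 * X))) /
          (Kf 0 X * (Complex.arg z * Complex.arg w)) := by
      field_simp
    rw [e3, abs_div, abs_of_pos hQ, div_le_iff₀ hQ]
    refine h2.trans (le_of_eq ?_)
    field_simp

lemma Th_pos {τ : ℝ} {z w : ℂ} (hτ : 0 < τ) (hzw : 0 < ‖z‖ * ‖w‖) : 0 < Th τ z w := by
  unfold Th
  have := Kf0_pos (‖z‖ * ‖w‖ / (2 * τ)) (by positivity)
  positivity

/-- geometry of points near the boundary -/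
lemma geom {l η x y : ℝ} (hl : 0 < l) (hη : η ≤ l / 2) (hx : |x - l| ≤ η) (hy : 0 < y) (hy1 : y ≤ η) :
    l / 2 ≤ ‖(x : ℂ) + (y : ℂ) * Complex.I‖ ∧ |‖(x : ℂ) + (y : ℂ) * Complex.I‖ - l| ≤ 2 * η ∧
    0 < Complex.arg ((x : ℂ) + (y : ℂ) * Complex.I) ∧
    Complex.arg ((x : ℂ) + (y : ℂ) * Complex.I) ≤ 2 * y / l := by
  have hx' := abs_le.mp hx
  have hxp : l / 2 ≤ x := by linarith
  have hx0 : 0 < x := by linarith
  have hre : ((x : ℂ) + (y : ℂ) * Complex.I).re = x := by simp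
  have him : ((x : ℂ) + (y : ℂ) * Complex.I).im = y := by simp
  refine ⟨?_, ?_, ?_, ?_⟩
  · have h := Complex.re_le_norm ((x : ℂ) + (y : ℂ) * Complex.I)
    rw [hre] at h
    linarith
  · have h1 : |‖(x : ℂ) + (y : ℂ) * Complex.I‖ - ‖(l : ℂ)‖| ≤ ‖((x : ℂ) + (y : ℂ) * Complex.I) - (l : ℂ)‖ :=
      abs_norm_sub_norm_le _ _
    rw [Complex.norm_real, Real.norm_eq_abs, abs_of_pos hl] at h1
    refine h1.trans ?_
    have e1 : ((x : ℂ) + (y : ℂ) * Complex.I) - (l : ℂ) = ((x - l : ℝ) : ℂ) + (y : ℂ) * Complex.I := by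
      push_cast
      ring
    rw [e1]
    refine (norm_add_le _ _).trans ?_
    rw [norm_mul, Complex.norm_I, mul_one, Complex.norm_real, Complex.norm_real, Real.norm_eq_abs,
      Real.norm_eq_abs, abs_of_pos hy]
    linarith
  · have h1 : 0 ≤ Complex.arg ((x : ℂ) + (y : ℂ) * Complex.I) := by
      rw [Complex.arg_nonneg_iff, him]
      exact hy.le
    rcases h1.lt_or_eq with h | h
    · exact h
    · exfalso
      have := Complex.arg_eq_zero_iff.mp h.symm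
      rw [him] at this
      linarith [this.2]
  · have h1 : 0 ≤ Complex.arg ((x : ℂ) + (y : ℂ) * Complex.I) := by
      rw [Complex.arg_nonneg_iff, him]
      exact hy.le
    have h2 : |Complex.arg ((x : ℂ) + (y : ℂ) * Complex.I)| < π / 2 := by
      rw [Complex.abs_arg_lt_pi_div_two_iff, hre]
      exact Or.inl hx0
    rw [abs_of_nonneg h1] at h2
    have h3 := Real.le_tan h1 h2
    rw [Complex.tan_arg, hre, him] at h3
    refine h3.trans ?_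
    rw [div_le_div_iff₀ hx0 hl]
    nlinarith

end Pool.Agent.N456.QD
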