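import Mathlib
import Pool.Agent.N456.QD.Bexp

/-!
The kernel near the boundary: E0, E1, E2 (helper456, for helper275's project QD).
-/

set_option autoImplicit false

namespace Pool.Agent.N456.QD

open MeasureTheory Set Filter Topology
open scoped Real
open Pool.Agent.N275.QD

lemma B_E0 (hMO : S_MO) (α l : ℝ) (h0 : 0 < α) (h1 : α < π / 2) (hl : 0 < l) : ∃ K η0 : ℝ, 0 < K ∧ 0 < η0 ∧
    ∀ η τ x x' y y' : ℝ, 0 < η → η ≤ η0 → 0 < τ → τ ≤ η → |x - l| ≤ η → |x' - l| ≤ η → 0 < y → y ≤ η →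
    0 < y' → y' ≤ η → ∃ B : ℝ, Gf α τ ((x : ℂ) + (y : ℂ) * Complex.I) ((x' : ℂ) + (y' : ℂ) * Complex.I) =
      Th τ ((x : ℂ) + (y : ℂ) * Complex.I) ((x' : ℂ) + (y' : ℂ) * Complex.I) *
        (Complex.arg ((x : ℂ) + (y : ℂ) * Complex.I) * Complex.arg ((x' : ℂ) + (y' : ℂ) * Complex.I)) * B ∧
      |B - mm 2 α| ≤ K * η := by
  obtain ⟨C, φ0, hC, hφ0, H⟩ := Gf_B hMO α h0 h1
  obtain ⟨_, m4⟩ := hMO.2.1 4 α h0 h1
  refine ⟨C * (64 / l ^ 4 + 8 / l ^ 2) + mm 4 α * (4 / l ^ 2), min (min (l / 2) 1) (min (φ0 * l / 2) (l ^ 2 / 8)),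
    by positivity, by positivity, ?_⟩
  intro η τ x x' y y' hη hη0 hτ hτη hx hx' hy hyη hy' hyη'
  have g1 : η ≤ l / 2 := hη0.trans ((min_le_left _ _).trans (min_le_left _ _))
  have g2 : η ≤ 1 := hη0.trans ((min_le_left _ _).trans (min_le_right _ _))
  have g3 : η ≤ φ0 * l / 2 := hη0.trans ((min_le_right _ _).trans (min_le_left _ _))
  have g4 : η ≤ l ^ 2 / 8 := hη0.trans ((min_le_right _ _).trans (min_le_right _ _))
  obtain ⟨a1, a2, a3, a4⟩ := geom hl g1 hx hy hyη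
  obtain ⟨b1, b2, b3, b4⟩ := geom hl g1 hx' hy' hyη'
  set z : ℂ := (x : ℂ) + (y : ℂ) * Complex.I with hz
  set w : ℂ := (x' : ℂ) + (y' : ℂ) * Complex.I with hw
  have hr : l ^ 2 / 4 ≤ ‖z‖ * ‖w‖ := by
    calc l ^ 2 / 4 = (l / 2) * (l / 2) := by ring
      _ ≤ ‖z‖ * ‖w‖ := by gcongr
  have hr0 : 0 < ‖z‖ * ‖w‖ := lt_of_lt_of_le (by positivity) hr
  have c1 : 2 * y / l ≤ φ0 := by
    rw [div_le_iff₀ hl]
    linarith
  have c2 : 2 * y' / l ≤ φ0 := by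
    rw [div_le_iff₀ hl]
    linarith
  obtain ⟨B, hB1, hB2⟩ := H τ z w hτ a3 (a4.trans c1) b3 (b4.trans c2) (by linarith)
  refine ⟨B, hB1, ?_⟩
  have d1 : τ / (‖z‖ * ‖w‖) ≤ 4 / l ^ 2 * η := by
    calc τ / (‖z‖ * ‖w‖) ≤ η / (l ^ 2 / 4) := by gcongr
      _ = _ := by field_simp
  have d0 : 0 ≤ τ / (‖z‖ * ‖w‖) := by positivity
  have hηη : η ^ 2 ≤ η := by nlinarith
  have d2 : (2 * τ / (‖z‖ * ‖w‖)) ^ 2 ≤ 64 / l ^ 4 * η := by
    calc (2 * τ / (‖z‖ * ‖w‖)) ^ 2 = (2 * (τ / (‖z‖ * ‖w‖))) ^ 2 := by ring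
      _ ≤ (2 * (4 / l ^ 2 * η)) ^ 2 := by gcongr
      _ = 64 / l ^ 4 * η ^ 2 := by ring
      _ ≤ _ := by gcongr
  have d3 : Complex.arg z ^ 2 ≤ 4 / l ^ 2 * η := by
    calc Complex.arg z ^ 2 ≤ (2 * y / l) ^ 2 := by gcongr
      _ ≤ (2 * η / l) ^ 2 := by gcongr
      _ = 4 / l ^ 2 * η ^ 2 := by ring
      _ ≤ _ := by gcongr
  have d4 : Complex.arg w ^ 2 ≤ 4 / l ^ 2 * η := by
    calc Complex.arg w ^ 2 ≤ (2 * y' / l) ^ 2 := by gcongr
      _ ≤ (2 * η / l) ^ 2 := by gcongr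
      _ = 4 / l ^ 2 * η ^ 2 := by ring
      _ ≤ _ := by gcongr
  calc |B - mm 2 α| = |(B - (mm 2 α - mm 4 α * (τ / (‖z‖ * ‖w‖)))) - mm 4 α * (τ / (‖z‖ * ‖w‖))| := by
        congr 1
        ring
    _ ≤ |B - (mm 2 α - mm 4 α * (τ / (‖z‖ * ‖w‖)))| + |mm 4 α * (τ / (‖z‖ * ‖w‖))| := abs_sub _ _
    _ ≤ C * (64 / l ^ 4 * η + 4 / l ^ 2 * η + 4 / l ^ 2 * η) + mm 4 α * (4 / l ^ 2 * η) := by
        rw [abs_of_nonneg (show 0 ≤ mm 4 α * (τ / (‖z‖ * ‖w‖)) by positivity)]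
        gcongr
        exact hB2.trans (by gcongr)
    _ = _ := by ring

lemma B_E1 (hMO : S_MO) (α l : ℝ) (h0 : 0 < α) (h1 : α < π / 2) (hl : 0 < l) : ∃ K η0 : ℝ, 0 < K ∧ 0 < η0 ∧
    ∀ η t τ x x' y y' : ℝ, 0 < η → η ≤ η0 → 0 < t → t < η → |τ - t| ≤ η * t → |x - l| ≤ η → |x' - l| ≤ η →
    0 < y → y ^ 2 ≤ η * t → 0 < y' → y' ^ 2 ≤ η * t →
    ∃ B : ℝ, Gf α τ ((x : ℂ) + (y : ℂ) * Complex.I) ((x' : ℂ) + (y' : ℂ) * Complex.I) =
      Th τ ((x : ℂ) + (y : ℂ) * Complex.I) ((x' : ℂ) + (y' : ℂ) * Complex.I) *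
        (Complex.arg ((x : ℂ) + (y : ℂ) * Complex.I) * Complex.arg ((x' : ℂ) + (y' : ℂ) * Complex.I)) * B ∧
      |B - (mm 2 α - mm 4 α * (t / l ^ 2))| ≤ K * (η * t) := by
  obtain ⟨C, φ0, hC, hφ0, H⟩ := Gf_B hMO α h0 h1
  obtain ⟨_, m4⟩ := hMO.2.1 4 α h0 h1
  refine ⟨C * (256 / l ^ 4 + 8 / l ^ 2) + mm 4 α * (4 * (l ^ 2 + 6 * l) / l ^ 4),
    min (min (l / 2) (1 / 2)) (min (φ0 * l / 2) (l ^ 2 / 16)), by positivity, by positivity, ?_⟩
  intro η t τ x x' y y' hη hη0 ht htη hτ hx hx' hy hyη hy' hyη'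
  have g1 : η ≤ l / 2 := hη0.trans ((min_le_left _ _).trans (min_le_left _ _))
  have g2 : η ≤ 1 / 2 := hη0.trans ((min_le_left _ _).trans (min_le_right _ _))
  have g3 : η ≤ φ0 * l / 2 := hη0.trans ((min_le_right _ _).trans (min_le_left _ _))
  have g4 : η ≤ l ^ 2 / 16 := hη0.trans ((min_le_right _ _).trans (min_le_right _ _))
  have hτ' := abs_le.mp hτ
  have hηt : η * t ≤ 1 / 2 * t := by gcongr
  have hτ0 : 0 < τ := by linarith
  have hτ2 : τ ≤ 2 * t := by linarith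
  have hηt0 : 0 < η * t := by positivity
  have ht2 : t ^ 2 ≤ η * t := by nlinarith
  have hy1 : y ≤ η := by
    have : y ^ 2 ≤ η ^ 2 := by nlinarith
    exact (sq_le_sq₀ hy.le hη.le).mp this
  have hy1' : y' ≤ η := by
    have : y' ^ 2 ≤ η ^ 2 := by nlinarith
    exact (sq_le_sq₀ hy'.le hη.le).mp this
  obtain ⟨a1, a2, a3, a4⟩ := geom hl g1 hx hy hy1
  obtain ⟨b1, b2, b3, b4⟩ := geom hl g1 hx' hy' hy1'
  set z : ℂ := (x : ℂ) + (y : ℂ) * Complex.I with hz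
  set w : ℂ := (x' : ℂ) + (y' : ℂ) * Complex.I with hw
  have hr : l ^ 2 / 4 ≤ ‖z‖ * ‖w‖ := by
    calc l ^ 2 / 4 = (l / 2) * (l / 2) := by ring
      _ ≤ ‖z‖ * ‖w‖ := by gcongr
  have hr0 : 0 < ‖z‖ * ‖w‖ := lt_of_lt_of_le (by positivity) hr
  have c1 : 2 * y / l ≤ φ0 := by
    rw [div_le_iff₀ hl]
    linarith
  have c2 : 2 * y' / l ≤ φ0 := by
    rw [div_le_iff₀ hl]
    linarith
  obtain ⟨B, hB1, hB2⟩ := H τ z w hτ0 a3 (a4.trans c1) b3 (b4.trans c2) (by linarith)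
  refine ⟨B, hB1, ?_⟩
  set r := ‖z‖ * ‖w‖ with hrdef
  have hrl : |r - l ^ 2| ≤ 6 * η * l := by
    have e1 : r - l ^ 2 = (‖z‖ - l) * ‖w‖ + l * (‖w‖ - l) := by rw [hrdef]; ring
    have hwl : ‖w‖ ≤ 2 * l := by
      have := (abs_le.mp b2).2
      linarith
    rw [e1]
    refine (abs_add_le _ _).trans ?_
    rw [abs_mul, abs_mul, abs_of_pos hl, abs_of_nonneg (norm_nonneg w)]
    calc |‖z‖ - l| * ‖w‖ + l * |‖w‖ - l| ≤ (2 * η) * (2 * l) + l * (2 * η) := by gcongr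
      _ = _ := by ring
  have d1 : |τ / r - t / l ^ 2| ≤ 4 * (l ^ 2 + 6 * l) / l ^ 4 * (η * t) := by
    have e1 : τ / r - t / l ^ 2 = ((τ - t) * l ^ 2 - t * (r - l ^ 2)) / (r * l ^ 2) := by
      field_simp
      ring
    rw [e1, abs_div, abs_of_pos (show 0 < r * l ^ 2 by positivity), div_le_iff₀ (by positivity)]
    have e2 : |(τ - t) * l ^ 2 - t * (r - l ^ 2)| ≤ (η * t) * (l ^ 2 + 6 * l) := by
      refine (abs_sub _ _).trans ?_
      rw [abs_mul, abs_mul, abs_of_pos ht, abs_of_pos (show 0 < l ^ 2 by positivity)]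
      calc |τ - t| * l ^ 2 + t * |r - l ^ 2| ≤ (η * t) * l ^ 2 + t * (6 * η * l) := by gcongr
        _ = _ := by ring
    refine e2.trans ?_
    calc (η * t) * (l ^ 2 + 6 * l) = 4 * (l ^ 2 + 6 * l) / l ^ 4 * (η * t) * (l ^ 2 / 4 * l ^ 2) := by
          field_simp
      _ ≤ 4 * (l ^ 2 + 6 * l) / l ^ 4 * (η * t) * (r * l ^ 2) := by gcongr
  have d2 : (2 * τ / r) ^ 2 ≤ 256 / l ^ 4 * (η * t) := by
    calc (2 * τ / r) ^ 2 ≤ (2 * (2 * t) / (l ^ 2 / 4)) ^ 2 := by gcongr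
      _ = 256 / l ^ 4 * t ^ 2 := by field_simp; norm_num
      _ ≤ _ := by gcongr
  have d3 : Complex.arg z ^ 2 ≤ 4 / l ^ 2 * (η * t) := by
    calc Complex.arg z ^ 2 ≤ (2 * y / l) ^ 2 := by gcongr
      _ = 4 / l ^ 2 * y ^ 2 := by ring
      _ ≤ _ := by gcongr
  have d4 : Complex.arg w ^ 2 ≤ 4 / l ^ 2 * (η * t) := by
    calc Complex.arg w ^ 2 ≤ (2 * y' / l) ^ 2 := by gcongr
      _ = 4 / l ^ 2 * y' ^ 2 := by ring
      _ ≤ _ := by gcongr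
  calc |B - (mm 2 α - mm 4 α * (t / l ^ 2))| =
        |(B - (mm 2 α - mm 4 α * (τ / r))) - mm 4 α * (τ / r - t / l ^ 2)| := by
        congr 1
        ring
    _ ≤ |B - (mm 2 α - mm 4 α * (τ / r))| + |mm 4 α * (τ / r - t / l ^ 2)| := abs_sub _ _
    _ ≤ C * (256 / l ^ 4 * (η * t) + 4 / l ^ 2 * (η * t) + 4 / l ^ 2 * (η * t)) +
        mm 4 α * (4 * (l ^ 2 + 6 * l) / l ^ 4 * (η * t)) := by
        rw [abs_mul, abs_of_pos m4]
        gcongr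
        exact hB2.trans (by gcongr)
    _ = _ := by ring

lemma Q_pos {l η x x' y y' τ : ℝ} (hl : 0 < l) (hη : η ≤ l / 2) (hx : |x - l| ≤ η) (hy : 0 < y) (hy1 : y ≤ η)
    (hx' : |x' - l| ≤ η) (hy' : 0 < y') (hy1' : y' ≤ η) (hτ : 0 < τ) :
    0 < Th τ ((x : ℂ) + (y : ℂ) * Complex.I) ((x' : ℂ) + (y' : ℂ) * Complex.I) ∧
    0 < Complex.arg ((x : ℂ) + (y : ℂ) * Complex.I) * Complex.arg ((x' : ℂ) + (y' : ℂ) * Complex.I) := by
  obtain ⟨a1, _, a3, _⟩ := geom hl hη hx hy hy1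
  obtain ⟨b1, _, b3, _⟩ := geom hl hη hx' hy' hy1'
  refine ⟨Th_pos hτ ?_, by positivity⟩
  have h1 : 0 < ‖(x : ℂ) + (y : ℂ) * Complex.I‖ := by linarith
  have h2 : 0 < ‖(x' : ℂ) + (y' : ℂ) * Complex.I‖ := by linarith
  positivity

theorem e0 (hMO : S_MO) : S_E0 := by
  intro α α' l ε h0 h1 h0' h1' hl hε
  obtain ⟨K, η1, hK, hη1, H⟩ := B_E0 hMO α l h0 h1 hl
  obtain ⟨K', η1', hK', hη1', H'⟩ := B_E0 hMO α' l h0' h1' hl
  obtain ⟨_, m2⟩ := hMO.2.1 2 α h0 h1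
  obtain ⟨_, m2'⟩ := hMO.2.1 2 α' h0' h1'
  set m := mm 2 α with hm
  set m' := mm 2 α' with hm'
  have hKK : 0 < K + m / m' * K' := add_pos hK (mul_pos (div_pos m2 m2') hK')
  obtain ⟨η, hη⟩ : ∃ η : ℝ, η = min (min η1 η1') (min (l / 2) (min (m' / (2 * K')) (ε * (m' / 2) / (K + m / m' * K')))) :=
    ⟨_, rfl⟩
  have hη0 : 0 < η := by rw [hη]; positivity
  have g1 : η ≤ η1 := by rw [hη]; exact (min_le_left _ _).trans (min_le_left _ _)
  have g2 : η ≤ η1' := by rw [hη]; exact (min_le_left _ _).trans (min_le_right _ _)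
  have g3 : η ≤ l / 2 := by rw [hη]; exact (min_le_right _ _).trans (min_le_left _ _)
  have g4 : η ≤ m' / (2 * K') := by
    rw [hη]; exact (min_le_right _ _).trans ((min_le_right _ _).trans (min_le_left _ _))
  have g5 : η ≤ ε * (m' / 2) / (K + m / m' * K') := by
    rw [hη]; exact (min_le_right _ _).trans ((min_le_right _ _).trans (min_le_right _ _))
  refine ⟨η, hη0, ?_⟩
  intro t τ x x' y y' ht htη hτ1 hτ2 hx hx' hy hyη hy' hyη'
  have hτ0 : 0 < τ := by linarith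
  obtain ⟨B, hB1, hB2⟩ := H η τ x x' y y' hη0 g1 hτ0 (by linarith) hx hx' hy hyη hy' hyη'
  obtain ⟨B', hB1', hB2'⟩ := H' η τ x x' y y' hη0 g2 hτ0 (by linarith) hx hx' hy hyη hy' hyη'
  obtain ⟨q1, q2⟩ := Q_pos hl g3 hx hy hyη hx' hy' hyη' hτ0
  set T := Th τ ((x : ℂ) + (y : ℂ) * Complex.I) ((x' : ℂ) + (y' : ℂ) * Complex.I)
  set P := Complex.arg ((x : ℂ) + (y : ℂ) * Complex.I) * Complex.arg ((x' : ℂ) + (y' : ℂ) * Complex.I)
  have hB' : m' / 2 ≤ B' := by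
    have h3 := (abs_le.mp hB2').1
    have h4 : K' * η ≤ m' / 2 := by
      rw [le_div_iff₀ (by positivity)] at g4
      linarith
    linarith
  have hQ : 0 < T * P := by positivity
  rw [hB1, hB1']
  have hB0 : 0 < B' := lt_of_lt_of_le (by positivity) hB'
  refine ⟨by positivity, ?_⟩
  have e1 : T * P * B - m / m' * (T * P * B') = T * P * (B - m / m' * B') := by ring
  rw [e1, abs_mul, abs_of_pos hQ]
  have e2 : B - m / m' * B' = (B - m) - m / m' * (B' - m') := by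
    field_simp
    ring
  have h5 : |B - m / m' * B'| ≤ ε * B' := by
    rw [e2]
    refine (abs_sub _ _).trans ?_
    rw [abs_mul, abs_of_pos (show 0 < m / m' by positivity)]
    calc |B - m| + m / m' * |B' - m'| ≤ K * η + m / m' * (K' * η) := by gcongr
      _ = (K + m / m' * K') * η := by ring
      _ ≤ ε * (m' / 2) := by
          rw [le_div_iff₀ hKK] at g5
          linarith
      _ ≤ ε * B' := by gcongr
  calc T * P * |B - m / m' * B'| ≤ T * P * (ε * B') := by gcongr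
    _ = _ := by ring

theorem e2 (hMO : S_MO) : S_E2 := by
  intro α l ε h0 h1 hl hε
  obtain ⟨K, η1, hK, hη1, H⟩ := B_E0 hMO α l h0 h1 hl
  obtain ⟨_, m2⟩ := hMO.2.1 2 α h0 h1
  set m := mm 2 α with hm
  have hD : 0 < 4 / l ^ 2 * (m + K) := by positivity
  obtain ⟨η, hη⟩ : ∃ η : ℝ, η = min (min η1 1) (min (l / 2) (ε / (4 / l ^ 2 * (m + K)))) := ⟨_, rfl⟩
  have hη0 : 0 < η := by rw [hη]; positivity
  have g1 : η ≤ η1 := by rw [hη]; exact (min_le_left _ _).trans (min_le_left _ _)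
  have g2 : η ≤ 1 := by rw [hη]; exact (min_le_left _ _).trans (min_le_right _ _)
  have g3 : η ≤ l / 2 := by rw [hη]; exact (min_le_right _ _).trans (min_le_left _ _)
  have g4 : η ≤ ε / (4 / l ^ 2 * (m + K)) := by rw [hη]; exact (min_le_right _ _).trans (min_le_right _ _)
  refine ⟨η, hη0, ?_⟩
  intro t τ x x' y y' ht htη hτ1 hτ2 hx hx' hy hyη hy' hyη'
  have hτ0 : 0 < τ := by linarith
  obtain ⟨B, hB1, hB2⟩ := H η τ x x' y y' hη0 g1 hτ0 (by linarith) hx hx' hy hyη hy' hyη'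
  obtain ⟨q1, q2⟩ := Q_pos hl g3 hx hy hyη hx' hy' hyη' hτ0
  obtain ⟨_, _, a3, a4⟩ := geom hl g3 hx hy hyη
  obtain ⟨_, _, b3, b4⟩ := geom hl g3 hx' hy' hyη'
  have hB : B ≤ m + K := by
    have h3 := (abs_le.mp hB2).2
    have : K * η ≤ K := by nlinarith
    linarith
  have hP : Complex.arg ((x : ℂ) + (y : ℂ) * Complex.I) * Complex.arg ((x' : ℂ) + (y' : ℂ) * Complex.I) ≤
      4 / l ^ 2 * η := by
    calc Complex.arg ((x : ℂ) + (y : ℂ) * Complex.I) * Complex.arg ((x' : ℂ) + (y' : ℂ) * Complex.I)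
        ≤ (2 * y / l) * (2 * y' / l) := by gcongr
      _ ≤ (2 * η / l) * (2 * 1 / l) := by gcongr; exact hyη'.trans g2
      _ = _ := by ring
  rw [hB1]
  set T := Th τ ((x : ℂ) + (y : ℂ) * Complex.I) ((x' : ℂ) + (y' : ℂ) * Complex.I)
  set P := Complex.arg ((x : ℂ) + (y : ℂ) * Complex.I) * Complex.arg ((x' : ℂ) + (y' : ℂ) * Complex.I)
  calc T * P * B ≤ T * P * (m + K) := by gcongr
    _ ≤ T * (4 / l ^ 2 * η) * (m + K) := by gcongr
    _ = (4 / l ^ 2 * (m + K) * η) * T := by ring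
    _ ≤ ε * T := by
        rw [le_div_iff₀ hD] at g4
        gcongr
        linarith

theorem e1 (hMO : S_MO) : S_E1 := by
  intro α α' l ε h0 h1 h0' h1' hl hε
  obtain ⟨K, η1, hK, hη1, H⟩ := B_E1 hMO α l h0 h1 hl
  obtain ⟨K', η1', hK', hη1', H'⟩ := B_E1 hMO α' l h0' h1' hl
  obtain ⟨_, m2⟩ := hMO.2.1 2 α h0 h1
  obtain ⟨_, m2'⟩ := hMO.2.1 2 α' h0' h1'
  obtain ⟨_, m4⟩ := hMO.2.1 4 α h0 h1
  obtain ⟨_, m4'⟩ := hMO.2.1 4 α' h0' h1'
  set m := mm 2 α with hm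
  set m' := mm 2 α' with hm'
  set n := mm 4 α with hn
  set n' := mm 4 α' with hn'
  set ρ := n / m - n' / m' with hρ
  obtain ⟨D, hD⟩ : ∃ D : ℝ, D = K + m / m' * (1 + |ρ| / l ^ 2) * K' + m * |ρ| * (n' / m') / l ^ 4 := ⟨_, rfl⟩
  have hmm : 0 < m / m' := div_pos m2 m2'
  have hnn : 0 < n' / m' := div_pos m4' m2'
  have hD0 : 0 < D := by rw [hD]; positivity
  obtain ⟨η, hη⟩ : ∃ η : ℝ, η = min (min (min η1 η1') (1 / 2)) (min (l / 2)
    (min (m' / (2 * (n' / l ^ 2 + K'))) (ε * (m' / 2) / D))) := ⟨_, rfl⟩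
  have hη0 : 0 < η := by rw [hη]; positivity
  have g1 : η ≤ η1 := by rw [hη]; exact (min_le_left _ _).trans ((min_le_left _ _).trans (min_le_left _ _))
  have g2 : η ≤ η1' := by rw [hη]; exact (min_le_left _ _).trans ((min_le_left _ _).trans (min_le_right _ _))
  have g6 : η ≤ 1 / 2 := by rw [hη]; exact (min_le_left _ _).trans (min_le_right _ _)
  have g3 : η ≤ l / 2 := by rw [hη]; exact (min_le_right _ _).trans (min_le_left _ _)
  have g4 : η ≤ m' / (2 * (n' / l ^ 2 + K')) := by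
    rw [hη]; exact (min_le_right _ _).trans ((min_le_right _ _).trans (min_le_left _ _))
  have g5 : η ≤ ε * (m' / 2) / D := by
    rw [hη]; exact (min_le_right _ _).trans ((min_le_right _ _).trans (min_le_right _ _))
  refine ⟨η, hη0, ?_⟩
  intro t τ x x' y y' ht htη hτ hx hx' hy hyη hy' hyη'
  have ht1 : t ≤ 1 := by linarith
  have ht2 : t ^ 2 ≤ η * t := by nlinarith
  have hηt0 : 0 < η * t := by positivity
  have hy1 : y ≤ η := by
    have : y ^ 2 ≤ η ^ 2 := by nlinarith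
    exact (sq_le_sq₀ hy.le hη0.le).mp this
  have hy1' : y' ≤ η := by
    have : y' ^ 2 ≤ η ^ 2 := by nlinarith
    exact (sq_le_sq₀ hy'.le hη0.le).mp this
  obtain ⟨B, hB1, hB2⟩ := H η t τ x x' y y' hη0 g1 ht htη hτ hx hx' hy hyη hy' hyη'
  obtain ⟨B', hB1', hB2'⟩ := H' η t τ x x' y y' hη0 g2 ht htη hτ hx hx' hy hyη hy' hyη'
  have hτ0 : 0 < τ := by
    have h3 := (abs_le.mp hτ).1
    have h4 : η * t ≤ 1 / 2 * t := by gcongr
    linarith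
  obtain ⟨q1, q2⟩ := Q_pos hl g3 hx hy hy1 hx' hy' hy1' hτ0
  set T := Th τ ((x : ℂ) + (y : ℂ) * Complex.I) ((x' : ℂ) + (y' : ℂ) * Complex.I)
  set P := Complex.arg ((x : ℂ) + (y : ℂ) * Complex.I) * Complex.arg ((x' : ℂ) + (y' : ℂ) * Complex.I)
  have hB' : m' / 2 ≤ B' := by
    have h3 := (abs_le.mp hB2').1
    have h4 : (n' / l ^ 2 + K') * η ≤ m' / 2 := by
      rw [le_div_iff₀ (by positivity)] at g4
      linarith
    have h5 : n' * (t / l ^ 2) + K' * (η * t) ≤ (n' / l ^ 2 + K') * η := by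
      have e1 : n' * (t / l ^ 2) = n' / l ^ 2 * t := by ring
      have e2 : n' / l ^ 2 * t ≤ n' / l ^ 2 * η := by gcongr
      have e3 : K' * (η * t) ≤ K' * η := by
        have : η * t ≤ η * 1 := by gcongr
        rw [mul_one] at this
        gcongr
      rw [e1, add_mul]
      exact add_le_add e2 e3
    linarith
  have hQ : 0 < T * P := by positivity
  rw [hB1, hB1']
  have hB0 : 0 < B' := lt_of_lt_of_le (by positivity) hB'
  refine ⟨by positivity, ?_⟩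
  obtain ⟨κ, hκ⟩ : ∃ κ : ℝ, κ = t / l ^ 2 := ⟨_, rfl⟩
  rw [← hκ] at hB2 hB2' ⊢
  have hκ0 : 0 < κ := by rw [hκ]; positivity
  have hκ1 : κ ≤ 1 / l ^ 2 := by rw [hκ]; gcongr
  have hκ2 : κ ^ 2 ≤ (η * t) / l ^ 4 := by
    rw [hκ, div_pow, ← pow_mul]
    gcongr
  have e1 : T * P * B - m / m' * (1 - κ * (n / m - n' / m')) * (T * P * B') =
      T * P * (B - m / m' * (1 - κ * ρ) * B') := by rw [hρ]; ring
  rw [e1, abs_mul, abs_of_pos hQ]
  have e2 : B - m / m' * (1 - κ * ρ) * B' = (B - (m - n * κ)) - m / m' * (1 - κ * ρ) * (B' - (m' - n' * κ)) -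
      m * κ ^ 2 * ρ * (n' / m') := by
    rw [hρ]
    field_simp
    ring
  have h6 : |1 - κ * ρ| ≤ 1 + |ρ| / l ^ 2 := by
    refine (abs_sub _ _).trans ?_
    rw [abs_one, abs_mul, abs_of_pos hκ0]
    have : κ * |ρ| ≤ 1 / l ^ 2 * |ρ| := by gcongr
    have e3 : 1 / l ^ 2 * |ρ| = |ρ| / l ^ 2 := by ring
    linarith
  have h5 : |B - m / m' * (1 - κ * ρ) * B'| ≤ D * (η * t) := by
    rw [e2]
    refine (abs_sub _ _).trans ?_
    have t1 : |(B - (m - n * κ)) - m / m' * (1 - κ * ρ) * (B' - (m' - n' * κ))| ≤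
        K * (η * t) + m / m' * (1 + |ρ| / l ^ 2) * (K' * (η * t)) := by
      refine (abs_sub _ _).trans ?_
      rw [abs_mul, abs_mul, abs_of_pos (show 0 < m / m' by positivity)]
      gcongr
    have t2 : |m * κ ^ 2 * ρ * (n' / m')| ≤ m * ((η * t) / l ^ 4) * |ρ| * (n' / m') := by
      rw [abs_mul, abs_mul, abs_of_pos (show 0 < m * κ ^ 2 by positivity),
        abs_of_pos (show 0 < n' / m' by positivity)]
      gcongr
    refine (add_le_add t1 t2).trans (le_of_eq ?_)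
    rw [hD]
    ring
  calc T * P * |B - m / m' * (1 - κ * ρ) * B'| ≤ T * P * (D * (η * t)) := by gcongr
    _ = T * P * (D * η * t) := by ring
    _ ≤ T * P * (ε * (m' / 2) * t) := by
        have : D * η ≤ ε * (m' / 2) := by
          rw [le_div_iff₀ hD0] at g5
          linarith
        gcongr
    _ ≤ T * P * (ε * B' * t) := by gcongr
    _ = _ := by ring

end Pool.Agent.N456.QD
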